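import Pool.Agent.Helper82.CN.St

/-!
# Project CN, module MCG: McDiarmid's inequality for blocks of bits
-/

set_option autoImplicit false

namespace Pool.Agent.Helper40.CN

open Finset Pool.Agent.Helper82.CN

private lemma conv_MCG (s x : ℝ) (h1 : -1 ≤ x) (h2 : x ≤ 1) :
    Real.exp (s * x) ≤ Real.cosh s + x * Real.sinh s := by
  have h := convexOn_exp.2 (Set.mem_univ s) (Set.mem_univ (-s))
    (show (0 : ℝ) ≤ (1 + x) / 2 by linarith) (show (0 : ℝ) ≤ (1 - x) / 2 by linarith) (by ring)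
  have e1 : (1 + x) / 2 * s + (1 - x) / 2 * -s = s * x := by ring
  simp only [smul_eq_mul] at h
  rw [e1] at h
  refine h.trans (le_of_eq ?_)
  rw [Real.cosh_eq, Real.sinh_eq]
  ring

private lemma hoeff_MCG {κ : Type} [Fintype κ] [DecidableEq κ] (p s : ℝ) (h0 : 0 ≤ p) (h1 : p ≤ 1)
    (H : (κ → Bool) → ℝ) (hH : ∀ ω ω', H ω - H ω' ≤ 1) :
    EE p (fun ω => Real.exp (s * (H ω - EE p H))) ≤ Real.exp (s ^ 2 / 2) := by
  have hb : ∀ ω, -1 ≤ H ω - EE p H ∧ H ω - EE p H ≤ 1 := by
    intro ω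
    have e1 : H ω - EE p H = EE p (fun ω' => H ω - H ω') := by
      rw [EE_sub p (fun _ => H ω) H, EE_const]
    rw [e1]
    constructor
    · have := EE_mono h0 h1 (F := fun _ : κ → Bool => (-1 : ℝ)) (G := fun ω' => H ω - H ω')
        (fun ω' => by have := hH ω' ω; linarith)
      rwa [EE_const] at this
    · have := EE_mono h0 h1 (F := fun ω' : κ → Bool => H ω - H ω') (G := fun _ => (1 : ℝ))
        (fun ω' => hH ω ω')
      rwa [EE_const] at this
  calc EE p (fun ω => Real.exp (s * (H ω - EE p H)))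
      ≤ EE p (fun ω => Real.cosh s + (H ω - EE p H) * Real.sinh s) :=
        EE_mono h0 h1 fun ω => conv_MCG s _ (hb ω).1 (hb ω).2
    _ = Real.cosh s := by
        rw [EE_add p (fun _ => Real.cosh s) (fun ω => (H ω - EE p H) * Real.sinh s), EE_const,
          EE_mul_right p (Real.sinh s) (fun ω => H ω - EE p H), EE_sub p H (fun _ => EE p H),
          EE_const, sub_self, zero_mul, add_zero]
    _ ≤ Real.exp (s ^ 2 / 2) := Real.cosh_le_exp_half_sq s

private lemma core_MCG (p s : ℝ) (h0 : 0 ≤ p) (h1 : p ≤ 1) : ∀ (n : ℕ) (ι : Type) [Fintype ι]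
    [DecidableEq ι] (β : ι → ℕ) (F : (ι → Bool) → ℝ), (∀ i, β i < n) →
    (∀ (j : ℕ) (ω ω' : ι → Bool), (∀ i, β i ≠ j → ω i = ω' i) → F ω - F ω' ≤ 1) →
    EE p (fun ω => Real.exp (s * (F ω - EE p F))) ≤ Real.exp (s ^ 2 * n / 2) := by
  intro n
  induction n with
  | zero =>
    intro ι _ _ β F hβ hF
    haveI : IsEmpty ι := ⟨fun i => absurd (hβ i) (Nat.not_lt_zero _)⟩
    have hc : ∀ ω, F ω = F (fun _ => false) := fun ω => congrArg F (Subsingleton.elim _ _)
    have hE : EE p F = F (fun _ => false) := by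
      have : F = fun _ => F (fun _ => false) := funext hc
      rw [this, EE_const]
    have : (fun ω => Real.exp (s * (F ω - EE p F))) = fun _ => (1 : ℝ) := by
      funext ω
      rw [hc ω, hE, sub_self, mul_zero, Real.exp_zero]
    rw [this, EE_const]
    simp
  | succ n ih =>
    intro ι _ _ β F hβ hF
    set P : ι → Prop := fun i => β i ≠ n with hP
    set g := (Equiv.piEquivPiSubtypeProd P (fun _ : ι => Bool)).symm with hg
    set Fb : ({i // P i} → Bool) → ℝ := fun ω₁ => EE p (fun ω₂ : {i // ¬ P i} → Bool =>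
      F (g (ω₁, ω₂))) with hFb
    have hEF : EE p F = EE p Fb := EE_split p P F
    have hinner : ∀ ω₁ : {i // P i} → Bool,
        EE p (fun ω₂ : {i // ¬ P i} → Bool => Real.exp (s * (F (g (ω₁, ω₂)) - EE p F))) ≤
          Real.exp (s * (Fb ω₁ - EE p Fb)) * Real.exp (s ^ 2 / 2) := by
      intro ω₁
      have e1 : (fun ω₂ : {i // ¬ P i} → Bool => Real.exp (s * (F (g (ω₁, ω₂)) - EE p F))) =
          fun ω₂ => Real.exp (s * (Fb ω₁ - EE p Fb)) *
            Real.exp (s * (F (g (ω₁, ω₂)) - Fb ω₁)) := by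
        funext ω₂
        rw [← Real.exp_add, hEF]
        congr 1
        ring
      rw [e1, EE_mul_left p _ (fun ω₂ : {i // ¬ P i} → Bool =>
        Real.exp (s * (F (g (ω₁, ω₂)) - Fb ω₁)))]
      refine mul_le_mul_of_nonneg_left ?_ (Real.exp_pos _).le
      refine hoeff_MCG p s h0 h1 (fun ω₂ => F (g (ω₁, ω₂))) ?_
      intro ω₂ ω₂'
      refine hF n _ _ ?_
      intro i hi
      rw [hg, glue_pos P _ _ i hi, glue_pos P _ _ i hi]
    have hstep : ∀ (j : ℕ) (ω ω' : {i // P i} → Bool), (∀ i, β i.1 ≠ j → ω i = ω' i) →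
        Fb ω - Fb ω' ≤ 1 := by
      intro j ω ω' h
      have e1 : Fb ω - Fb ω' = EE p (fun ω₂ : {i // ¬ P i} → Bool =>
          F (g (ω, ω₂)) - F (g (ω', ω₂))) := (EE_sub p _ _).symm
      rw [e1]
      have := EE_mono h0 h1 (F := fun ω₂ : {i // ¬ P i} → Bool => F (g (ω, ω₂)) - F (g (ω', ω₂)))
        (G := fun _ => (1 : ℝ)) (fun ω₂ => hF j _ _ fun i hi => by
          by_cases hp : P i
          · rw [hg, glue_pos P _ _ i hp, glue_pos P _ _ i hp]
            exact h ⟨i, hp⟩ hi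
          · rw [hg, glue_neg P _ _ i hp, glue_neg P _ _ i hp])
      rwa [EE_const] at this
    have hih := ih {i // P i} (fun i => β i.1) Fb (fun i => by
      have h2 := hβ i.1
      have h3 : β i.1 ≠ n := i.2
      omega) hstep
    rw [EE_split p P (fun ω => Real.exp (s * (F ω - EE p F)))]
    calc EE p (fun ω₁ : {i // P i} → Bool => EE p (fun ω₂ : {i // ¬ P i} → Bool =>
          Real.exp (s * (F (g (ω₁, ω₂)) - EE p F))))
        ≤ EE p (fun ω₁ => Real.exp (s * (Fb ω₁ - EE p Fb)) * Real.exp (s ^ 2 / 2)) :=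
          EE_mono h0 h1 hinner
      _ = EE p (fun ω₁ => Real.exp (s * (Fb ω₁ - EE p Fb))) * Real.exp (s ^ 2 / 2) :=
          EE_mul_right p _ _
      _ ≤ Real.exp (s ^ 2 * n / 2) * Real.exp (s ^ 2 / 2) :=
          mul_le_mul_of_nonneg_right hih (Real.exp_pos _).le
      _ = Real.exp (s ^ 2 * (n + 1 : ℕ) / 2) := by
          rw [← Real.exp_add]
          congr 1
          push_cast
          ring

theorem tMCG : StMcg := by
  intro p n ι _ _ β F s h0 h1 hF
  refine core_MCG p s h0 h1 n ι (fun i => (β i : ℕ)) F (fun i => (β i).2) ?_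
  intro j ω ω' h
  by_cases hj : j < n
  · refine hF ⟨j, hj⟩ ω ω' ?_
    intro i hi
    exact h i fun he => hi (Fin.ext he)
  · have : ω = ω' := funext fun i => h i (by have := (β i).2; omega)
    rw [this, sub_self]
    exact zero_le_one

end Pool.Agent.Helper40.CN
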